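import Pool.Agent.Helper79.Lin.Unf

/-! # Packet LRHO: the integral of `Lρ` over the quotient vanishes -/

open Complex Metric Set Filter Topology MeasureTheory
open scoped ContDiff ComplexConjugate ComplexOrder

namespace Pool.Agent.Helper79.Lin

open Pool.Agent.Helper95.Lin

section dd

variable {n : ℕ} {M : Set (Cn n)}

theorem dd_smooth (hM : IsOpen M) {φ : Cn n → ℝ} (hφ : ContDiffOn ℝ ∞ φ M)
    (a : Fin n × Bool) : ContDiffOn ℝ ∞ (dd φ a) M := by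
  unfold dd
  have h : ContDiffOn ℝ ∞ (fderiv ℝ φ) M := hφ.fderiv_of_isOpen hM (by simp)
  exact h.clm_apply contDiffOn_const

theorem dd_loc {φ ψ : Cn n → ℝ} {x : Cn n} (h : φ =ᶠ[𝓝 x] ψ) (a : Fin n × Bool) :
    dd φ a =ᶠ[𝓝 x] dd ψ a := by
  have := h.fderiv (𝕜 := ℝ)
  filter_upwards [this] with y hy
  unfold dd
  rw [hy]

theorem dd_add {φ ψ : Cn n → ℝ} {x : Cn n} (h : DifferentiableAt ℝ φ x)
    (h' : DifferentiableAt ℝ ψ x) (a : Fin n × Bool) :
    dd (φ + ψ) a x = dd φ a x + dd ψ a x := by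
  unfold dd
  rw [fderiv_add h h']
  rfl

theorem dd_const (r : ℝ) (a : Fin n × Bool) : dd (fun _ : Cn n => r) a = 0 := by
  funext x
  unfold dd
  simp

theorem Lop_smooth (hM : IsOpen M) {P : Fin n × Bool → Fin n × Bool → Cn n → ℝ}
    (hP : ∀ a b, ContDiffOn ℝ ∞ (P a b) M) {φ : Cn n → ℝ} (hφ : ContDiffOn ℝ ∞ φ M) :
    ContDiffOn ℝ ∞ (Lop P φ) M := by
  unfold Lop
  refine ContDiffOn.sum fun a _ => ContDiffOn.sum fun b _ => ?_
  exact (hP a b).mul (dd_smooth hM (dd_smooth hM hφ b) a)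

theorem Bop_smooth (hM : IsOpen M) {P : Fin n × Bool → Fin n × Bool → Cn n → ℝ}
    (hP : ∀ a b, ContDiffOn ℝ ∞ (P a b) M) {φ ψ : Cn n → ℝ} (hφ : ContDiffOn ℝ ∞ φ M)
    (hψ : ContDiffOn ℝ ∞ ψ M) : ContDiffOn ℝ ∞ (Bop P φ ψ) M := by
  unfold Bop
  refine ContDiffOn.sum fun a _ => ContDiffOn.sum fun b _ => ?_
  exact ((hP a b).mul (dd_smooth hM hφ a)).mul (dd_smooth hM hψ b)

theorem Lop_loc {P : Fin n × Bool → Fin n × Bool → Cn n → ℝ} {φ ψ : Cn n → ℝ} {x : Cn n}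
    (h : φ =ᶠ[𝓝 x] ψ) : Lop P φ x = Lop P ψ x := by
  unfold Lop
  refine Finset.sum_congr rfl fun a _ => Finset.sum_congr rfl fun b _ => ?_
  rw [(dd_loc (dd_loc h b) a).self_of_nhds]

theorem Bop_loc {P : Fin n × Bool → Fin n × Bool → Cn n → ℝ} {φ ψ φ' ψ' : Cn n → ℝ} {x : Cn n}
    (h : φ =ᶠ[𝓝 x] ψ) (h' : φ' =ᶠ[𝓝 x] ψ') : Bop P φ φ' x = Bop P ψ ψ' x := by
  unfold Bop
  refine Finset.sum_congr rfl fun a _ => Finset.sum_congr rfl fun b _ => ?_
  rw [(dd_loc h a).self_of_nhds, (dd_loc h' b).self_of_nhds]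

theorem Lop_const (P : Fin n × Bool → Fin n × Bool → Cn n → ℝ) (r : ℝ) (x : Cn n) :
    Lop P (fun _ => r) x = 0 := by
  unfold Lop
  refine Finset.sum_eq_zero fun a _ => Finset.sum_eq_zero fun b _ => ?_
  rw [dd_const]
  have : dd (0 : Cn n → ℝ) a x = 0 := by
    have := congrFun (dd_const (n := n) 0 a) x
    exact this
  rw [this, mul_zero]

theorem Bop_const_left (P : Fin n × Bool → Fin n × Bool → Cn n → ℝ) (r : ℝ) (ψ : Cn n → ℝ)
    (x : Cn n) : Bop P (fun _ => r) ψ x = 0 := by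
  unfold Bop
  refine Finset.sum_eq_zero fun a _ => Finset.sum_eq_zero fun b _ => ?_
  rw [dd_const]
  simp

theorem Bop_add_left {P : Fin n × Bool → Fin n × Bool → Cn n → ℝ} {φ ψ ρ : Cn n → ℝ} {x : Cn n}
    (h : DifferentiableAt ℝ φ x) (h' : DifferentiableAt ℝ ψ x) :
    Bop P (φ + ψ) ρ x = Bop P φ ρ x + Bop P ψ ρ x := by
  unfold Bop
  rw [← Finset.sum_add_distrib]
  refine Finset.sum_congr rfl fun a _ => ?_
  rw [← Finset.sum_add_distrib]
  refine Finset.sum_congr rfl fun b _ => ?_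
  rw [dd_add h h']
  ring

/-- The product of a test function and a function which is smooth on `M` is a test function. -/
theorem testF_mul (hM : IsOpen M) {χ ρ : Cn n → ℝ} (hχ : TestF M χ) (hρ : ContDiffOn ℝ ∞ ρ M) :
    TestF M (χ * ρ) := by
  refine ⟨?_, hχ.2.1.mul_right, (tsupport_mul_subset_left (f := χ) (g := ρ)).trans hχ.2.2⟩
  rw [contDiff_iff_contDiffAt]
  intro x
  by_cases hx : x ∈ tsupport χ
  · exact hχ.1.contDiffAt.mul ((hρ x (hχ.2.2 hx)).contDiffAt (hM.mem_nhds (hχ.2.2 hx)))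
  · have h0 : χ * ρ =ᶠ[𝓝 x] fun _ => 0 := by
      filter_upwards [notMem_tsupport_iff_eventuallyEq.1 hx] with y hy
      simp [hy]
    exact contDiffAt_const.congr_of_eventuallyEq h0

/-- The operator `φ ↦ B(φ, ρ)` is natural if `ρ` is invariant up to constants. -/
theorem Bop_nat (leib : S_LEIB) {Γ : Type} [Group Γ] {T : Γ → Cn n → Cn n}
    {P : Fin n × Bool → Fin n × Bool → Cn n → ℝ} (h : EAct M T P) {ρ : Cn n → ℝ} {c : Γ → ℝ}
    (hρ : ContDiffOn ℝ ∞ ρ M) (hc : ∀ γ, ∀ x ∈ M, ρ (T γ x) = ρ x + c γ) (γ : Γ) {φ : Cn n → ℝ}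
    (hφ : ContDiffOn ℝ ∞ φ M) {x : Cn n} (hx : x ∈ M) :
    Bop P (φ ∘ T γ) ρ x = Jac T γ x * Bop P φ ρ (T γ x) := by
  have hMo := h.act.isOpen
  have hT : ∀ f : Cn n → ℝ, ContDiffOn ℝ ∞ f M → ContDiffOn ℝ ∞ (f ∘ T γ) M := fun f hf =>
    hf.comp (h.act.contDiffOn γ) (h.act.maps γ)
  have hTx := h.act.maps γ x hx
  have e1 : Bop P (φ ∘ T γ) ρ x = Bop P (φ ∘ T γ) (ρ ∘ T γ) x := by
    unfold Bop
    refine Finset.sum_congr rfl fun a _ => Finset.sum_congr rfl fun b _ => ?_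
    have h1 : ρ ∘ T γ =ᶠ[𝓝 x] ρ + fun _ => c γ := by
      filter_upwards [hMo.mem_nhds hx] with y hy
      simp [hc γ y hy]
    rw [(dd_loc h1 b).self_of_nhds, dd_add (((hρ x hx).contDiffAt
      (hMo.mem_nhds hx)).differentiableAt (by simp)) (differentiableAt_const _), dd_const]
    simp
  have l1 := leib M P hMo h.symm (φ ∘ T γ) (ρ ∘ T γ) (hT φ hφ) (hT ρ hρ) x hx
  have l2 := leib M P hMo h.symm φ ρ hφ hρ (T γ x) hTx
  have n1 := h.nat γ (φ * ρ) (hφ.mul hρ) x hx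
  have n2 := h.nat γ φ hφ x hx
  have n3 := h.nat γ ρ hρ x hx
  have e2 : (φ ∘ T γ) * (ρ ∘ T γ) = (φ * ρ) ∘ T γ := rfl
  rw [e2, n1, n2, n3, l2] at l1
  simp only [Function.comp_apply] at l1
  rw [e1]
  linarith

end dd

theorem lrho (ibp : S_IBP) (leib : S_LEIB) (unf : S_UNF) : S_LRHO := by
  intro n M Γ _ T P χ h hχ ρ c hρ hc
  have hMo := h.act.isOpen
  have hKc : IsCompact (tsupport χ) := hχ.test.2.1
  have hKM : tsupport χ ⊆ M := hχ.test.2.2
  have hχs : ContDiffOn ℝ ∞ χ M := hχ.test.1.contDiffOn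
  have hd : ∀ φ : Cn n → ℝ, ContDiffOn ℝ ∞ φ M → ∀ x ∈ M, DifferentiableAt ℝ φ x :=
    fun φ hφ x hx => ((hφ x hx).contDiffAt (hMo.mem_nhds hx)).differentiableAt (by simp)
  -- the bilinear term
  have hB : ∫ x in M, Bop P χ ρ x = 0 := by
    have := unf h.act hχ (fun φ => Bop P φ ρ) (fun φ hφ =>
      (Bop_smooth hMo h.smooth hφ hρ).continuousOn)
      (fun φ ψ _ _ x _ e => Bop_loc e (EventuallyEq.refl _ _))
      (fun φ ψ hφ hψ x hx => Bop_add_left (hd φ hφ x hx) (hd ψ hψ x hx))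
      (fun γ φ hφ x hx => Bop_nat leib h hρ hc γ hφ hx)
    rw [this]
    simp [Bop_const_left]
  -- integration of `L(χρ)`
  have h1 : ∫ x in M, Lop P (χ * ρ) x = 0 := by
    have := ibp M P hMo h.smooth h.symm h.div (χ * ρ) (fun _ => 1) (testF_mul hMo hχ.test hρ)
      contDiffOn_const
    simpa [Lop_const] using this
  have h2 : ∫ x in M, ρ x * Lop P χ x = ∫ x in M, χ x * Lop P ρ x :=
    ibp M P hMo h.smooth h.symm h.div χ ρ hχ.test hρ
  have h3 : ∫ x in M, Lop P (χ * ρ) x =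
      ∫ x in M, (χ x * Lop P ρ x + ρ x * Lop P χ x) + 2 * Bop P χ ρ x := by
    refine setIntegral_congr_fun hMo.measurableSet ?_
    intro x hx
    exact leib M P hMo h.symm χ ρ hχs hρ x hx
  have hz : ∀ x, x ∉ tsupport χ → χ =ᶠ[𝓝 x] fun _ => 0 := fun x hx =>
    notMem_tsupport_iff_eventuallyEq.1 hx
  have i1 : IntegrableOn (fun x => χ x * Lop P ρ x) M := by
    refine integrableOn_of_cs hMo hKc hKM
      (hχs.continuousOn.mul (Lop_smooth hMo h.smooth hρ).continuousOn) ?_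
    intro x _ hx
    rw [image_eq_zero_of_notMem_tsupport hx, zero_mul]
  have i2 : IntegrableOn (fun x => ρ x * Lop P χ x) M := by
    refine integrableOn_of_cs hMo hKc hKM
      (hρ.continuousOn.mul (Lop_smooth hMo h.smooth hχs).continuousOn) ?_
    intro x _ hx
    rw [Lop_loc (hz x hx), Lop_const, mul_zero]
  have i3 : IntegrableOn (fun x => Bop P χ ρ x) M := by
    refine integrableOn_of_cs hMo hKc hKM (Bop_smooth hMo h.smooth hχs hρ).continuousOn ?_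
    intro x _ hx
    rw [Bop_loc (hz x hx) (EventuallyEq.refl _ _), Bop_const_left]
  have h4 : ∫ x in M, (χ x * Lop P ρ x + ρ x * Lop P χ x) + 2 * Bop P χ ρ x =
      ((∫ x in M, χ x * Lop P ρ x) + ∫ x in M, ρ x * Lop P χ x) +
        2 * ∫ x in M, Bop P χ ρ x := by
    have i12 : IntegrableOn (fun x => χ x * Lop P ρ x + ρ x * Lop P χ x) M := i1.add i2
    rw [integral_add i12 (i3.const_mul 2), integral_add i1 i2, integral_const_mul]
  rw [h3, h4, h2, hB] at h1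
  linarith

end Pool.Agent.Helper79.Lin
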