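import Pool.Agent.Helper95.Lin.GoalsH
import Pool.Agent.Helper95.Lin.Basics

/-! # Packet UNF: unfolding of a local, additive, natural operator -/

open Complex Metric Set Filter Topology MeasureTheory
open scoped ContDiff ComplexConjugate ComplexOrder

namespace Pool.Agent.Helper79.Lin

open Pool.Agent.Helper95.Lin

/-- A function which is continuous on `M` and vanishes off a compact subset of `M` is integrable
on `M`. -/
theorem integrableOn_of_cs {n : ℕ} {M K : Set (Cn n)} (hM : IsOpen M) (hK : IsCompact K)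
    (hKM : K ⊆ M) {f : Cn n → ℝ} (hf : ContinuousOn f M) (h0 : ∀ x ∈ M, x ∉ K → f x = 0) :
    IntegrableOn f M := by
  have h1 : IntegrableOn f K := (hf.mono hKM).integrableOn_compact hK
  have h2 : IntegrableOn f (M \ K) := by
    refine (integrableOn_zero (s := M \ K)).congr_fun ?_ (hM.measurableSet.diff hK.measurableSet)
    intro x hx
    exact (h0 x hx.1 hx.2).symm
  have h3 : M = K ∪ (M \ K) := by
    rw [union_sdiff_cancel hKM]
  rw [h3]
  exact h1.union h2

theorem unf (chv : S_CHV) : S_UNF := by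
  intro n M Γ _ T χ hM hχ N hc hloc hadd hnat
  classical
  have hMo := hM.isOpen
  have hKc : IsCompact (tsupport χ) := hχ.test.2.1
  have hKM : tsupport χ ⊆ M := hχ.test.2.2
  have hχs : ContDiffOn ℝ ∞ χ M := hχ.test.1.contDiffOn
  obtain ⟨Q, hQc, hKQ, hQM⟩ := exists_compact_between hKc hMo hKM
  have hKQ' : tsupport χ ⊆ Q := hKQ.trans interior_subset
  -- the finite set
  have hfin := hχ.fin Q hQM hQc
  obtain ⟨S, hSinv, hSQ⟩ : ∃ S : Finset Γ, (∀ γ, γ ∈ S → γ⁻¹ ∈ S) ∧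
      ∀ γ, (∃ x ∈ Q, T γ x ∈ tsupport χ) → γ ∈ S := by
    refine ⟨hfin.toFinset ∪ hfin.toFinset.image (·⁻¹), ?_, ?_⟩
    · intro γ hγ
      rw [Finset.mem_union] at hγ ⊢
      rcases hγ with h | h
      · exact Or.inr (Finset.mem_image_of_mem _ h)
      · obtain ⟨δ, hδ, rfl⟩ := Finset.mem_image.1 h
        left
        simpa using hδ
    · intro γ hγ
      exact Finset.mem_union_left _ (by simpa using hγ)
  have hz : ∀ x ∈ Q, ∀ γ, γ ∉ S → χ (T γ x) = 0 := by
    intro x hx γ hγ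
    by_contra hne
    exact hγ (hSQ γ ⟨x, hx, subset_tsupport χ hne⟩)
  have hsum : ∀ x ∈ Q, ∑ γ ∈ S, χ (T γ x) = 1 := by
    intro x hx
    rw [← hχ.sum x (hQM hx)]
    refine (finsum_eq_sum_of_support_subset _ ?_).symm
    intro γ hγ
    by_contra hne
    exact hγ (hz x hx γ hne)
  have hsum' : ∀ x ∈ Q, ∑ γ ∈ S, χ (T γ⁻¹ x) = 1 := by
    intro x hx
    rw [← hsum x hx]
    exact Finset.sum_nbij' (fun γ => γ⁻¹) (fun γ => γ⁻¹) hSinv hSinv (by simp) (by simp)
      (by simp)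
  have hN0 : ∀ x ∈ M, N 0 x = 0 := by
    intro x hx
    have := hadd 0 0 contDiffOn_const contDiffOn_const x hx
    simpa using this
  have hcs : ∀ (s : Finset Γ) (φ : Γ → Cn n → ℝ), (∀ γ, ContDiffOn ℝ ∞ (φ γ) M) →
      ContDiffOn ℝ ∞ (∑ γ ∈ s, φ γ) M := by
    intro s φ hφ
    have := ContDiffOn.sum (s := s) (f := φ) (t := M) (n := ∞) (𝕜 := ℝ) fun γ _ => hφ γ
    refine this.congr fun x _ => ?_
    simp
  have hNsum : ∀ (s : Finset Γ) (φ : Γ → Cn n → ℝ), (∀ γ, ContDiffOn ℝ ∞ (φ γ) M) →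
      ∀ x ∈ M, N (∑ γ ∈ s, φ γ) x = ∑ γ ∈ s, N (φ γ) x := by
    intro s φ hφ x hx
    induction s using Finset.induction_on with
    | empty => simpa using hN0 x hx
    | insert a s ha ih =>
      rw [Finset.sum_insert ha, Finset.sum_insert ha, hadd _ _ (hφ a) (hcs s φ hφ) x hx, ih]
  have hoff : ∀ x ∈ M, x ∉ tsupport χ → N χ x = 0 := by
    intro x hx hxs
    rw [← hN0 x hx]
    refine hloc χ 0 hχs contDiffOn_const x hx ?_
    exact notMem_tsupport_iff_eventuallyEq.1 hxs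
  have hT : ∀ γ, ContDiffOn ℝ ∞ (χ ∘ T γ) M := fun γ =>
    hχ.test.1.comp_contDiffOn (hM.contDiffOn γ)
  -- step 1
  have h1 : ∫ x in M, N χ x = ∫ x in M, ∑ γ ∈ S, χ (T γ x) * N χ x := by
    refine setIntegral_congr_fun hMo.measurableSet ?_
    intro x hx
    simp only
    by_cases hxs : x ∈ tsupport χ
    · rw [← Finset.sum_mul, hsum x (hKQ' hxs), one_mul]
    · simp [hoff x hx hxs]
  have h2 : ∫ x in M, ∑ γ ∈ S, χ (T γ x) * N χ x = ∑ γ ∈ S, ∫ x in M, χ (T γ x) * N χ x := by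
    refine integral_finsetSum _ fun γ _ => ?_
    refine integrableOn_of_cs hMo hKc hKM ?_ ?_
    · exact (hT γ).continuousOn.mul (hc χ hχs)
    · intro x hx hxs
      rw [hoff x hx hxs, mul_zero]
  have h3 : ∀ γ, ∫ x in M, χ (T γ x) * N χ x = ∫ x in M, χ x * N (χ ∘ T γ⁻¹) x := by
    intro γ
    rw [← chv hM (fun x => χ (T γ x) * N χ x) γ⁻¹]
    refine setIntegral_congr_fun hMo.measurableSet ?_
    intro x hx
    simp only
    rw [hM.inv_right γ hx, hnat γ⁻¹ χ hχs x hx]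
    ring
  have h4 : ∑ γ ∈ S, ∫ x in M, χ x * N (χ ∘ T γ⁻¹) x =
      ∫ x in M, ∑ γ ∈ S, χ x * N (χ ∘ T γ⁻¹) x := by
    refine (integral_finsetSum _ fun γ _ => ?_).symm
    refine integrableOn_of_cs hMo hKc hKM ?_ ?_
    · exact hχs.continuousOn.mul (hc _ (hT γ⁻¹))
    · intro x hx hxs
      rw [image_eq_zero_of_notMem_tsupport hxs, zero_mul]
  rw [h1, h2, Finset.sum_congr rfl fun γ _ => h3 γ, h4]
  refine setIntegral_congr_fun hMo.measurableSet ?_
  intro x hx
  simp only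
  by_cases hxs : x ∈ tsupport χ
  · rw [← Finset.mul_sum, ← hNsum S (fun γ => χ ∘ T γ⁻¹) (fun γ => hT γ⁻¹) x hx]
    congr 1
    refine hloc _ _ (hcs S _ fun γ => hT γ⁻¹) contDiffOn_const x hx ?_
    filter_upwards [isOpen_interior.mem_nhds (hKQ hxs)] with y hy
    have := hsum' y (interior_subset hy)
    simpa using this
  · rw [image_eq_zero_of_notMem_tsupport hxs]
    simp

end Pool.Agent.Helper79.Lin
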